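import Pool.Agent.TH751.QP.Arith

/-!
# Primitivity of `Q(A)` is decidable for finite Heyting algebras `A`

There is an algorithm (a computable function on lists of natural numbers) which, given the
operation tables of a finite Heyting algebra `A`, decides whether the quasivariety `Q(A)` generated
by `A` is primitive; the same algorithm decides whether the deductive system `⊢_A` is hereditarily
structurally complete.

Proof idea.  `Q(A)` is primitive iff for all `B` of size at most `n = |A|` and `C` of size at most
`n ^ (n ^ n)` in `Q(A)`, if `B` is a homomorphic image of `C` then `B` lies in `ISP(C)`.  If a
subquasivariety `K'` is not a relative variety, then some finitely generated algebra `X` of `Q(A)`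
satisfies the identities of `K'` but refutes a quasi-identity of `K'`; composing with a suitable
homomorphism to `A` one obtains such an algebra `B` embedded in `A`.  It is a homomorphic image of
the `|B|`-generated free algebra `C` of `K'`, and `B` does not lie in `ISP(C)`.
-/

set_option autoImplicit false

namespace Pool.Agent.Results.MP_51e3d2_lc.PrimitiveDecidable

open Pool.Agent.H877R3.HSC Pool.Agent.TH751.QP

/-- **Primitivity of the quasivariety generated by a finite Heyting algebra is decidable**, and so
is hereditary structural completeness of the deductive system of a finite Heyting algebra; the two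
properties are equivalent. -/
theorem result :
    ∃ f : List ℕ → Bool, Computable f ∧
      ∀ (A : Type) [HeytingAlgebra A] [Finite A] (n : ℕ) (e : A ≃ Fin n),
        (f (tables e) = true ↔ Primitive (QVar (Alg.ofHeyting A))) ∧
        (f (tables e) = true ↔ (matrixSystem A).HereditarilyStructurallyComplete) := by
  obtain ⟨f, hf, h⟩ := critQ_computable
  refine ⟨f, hf, fun A _ _ n e => ⟨?_, ?_⟩⟩
  · rw [h, critQ_iff e, ← primitive_iff_crit e]
  · rw [h, critQ_iff e, ← hsc_iff_crit' e]

end Pool.Agent.Results.MP_51e3d2_lc.PrimitiveDecidable
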